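import Pool.Agent.H70.EH.Targets

/-!
# MP_0f8dca_lc, module FIN: the theorem from compactness
-/

set_option autoImplicit false

namespace Pool.Agent.H54.EH

open Pool.Agent.H6.NB Pool.Agent.H70.OQ Pool.Agent.H70.EH

theorem fin (h1 : Pool.Agent.H70.EH.T_EXE) (h2 : Pool.Agent.H70.EH.T_CMP)
    (h3 : Pool.Agent.H70.EH.T_DCX) (h4 : Pool.Agent.H70.EH.T_YEX) : Pool.Agent.H70.EH.T_FIN := by
  intro V
  obtain ⟨O, hO⟩ := h2 (ℕ × List Bool) (fun a O => Okx (V a.1) a.1 a.2 O)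
    (fun a => h3 (V a.1) a.1 a.2) (fun E => h1 V E)
  refine ⟨O, fun i x => ?_⟩
  have h := hO (i, x)
  unfold Okx at h
  have h5 := h4 O (slot (V i) i x) _ h
  constructor
  · intro hx
    exact h5.1 (by simpa using hx)
  · intro hx
    exact h5.2 (by simpa using hx)

end Pool.Agent.H54.EH
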