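import Pool.Agent.H90.EH.Targets

/-! LFZ: finiteness for integral generators (MP_e3a811_co). -/

set_option autoImplicit false

namespace Pool.Agent.H54.EH

open Finset Pool.Agent.H90.EH

theorem bd {ι : Type} [Fintype ι] (T : Finset (ι → ℚ)) : ∃ N : ℚ, ∀ a ∈ T, ∀ i, |a i| ≤ N := by
  have h : ∀ b : ι → ℚ, ∀ i, |b i| ≤ ∑ j, |b j| := fun b i =>
    Finset.single_le_sum (f := fun j => |b j|) (fun j _ => abs_nonneg (b j)) (mem_univ i)
  refine ⟨∑ b ∈ T, ∑ j, |b j|, ?_⟩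
  intro a ha i
  have h0 : ∀ b ∈ T, (0 : ℚ) ≤ (fun b : ι → ℚ => ∑ j, |b j|) b := by
    intro b _
    exact Finset.sum_nonneg fun j _ => abs_nonneg (b j)
  have h2 := Finset.single_le_sum (f := fun b : ι → ℚ => ∑ j, |b j|) h0 ha
  exact le_trans (h a i) h2

theorem mem_gen {d : ℕ} {S : Finset (Fin d → ℤ)} (a : Fin d ⊕ Unit → ℚ) (ha : a ∈ gen S) :
    a ∈ ZL (Fin d ⊕ Unit) ∧ lc d a = 1 := by
  unfold gen at ha
  rw [mem_image] at ha
  obtain ⟨x, -, rfl⟩ := ha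
  refine ⟨?_, ?_⟩
  · intro i
    rcases i with i | i
    · exact ⟨x i, by simp [pt]⟩
    · exact ⟨1, by simp [pt]⟩
  · simp [lc, pt]

theorem finBox {ι : Type} [Fintype ι] (K : ℕ) :
    {x : ι → ℚ | x ∈ ZL ι ∧ ∀ i, |x i| ≤ (K : ℚ)}.Finite := by
  have hfin : ((fun (f : ι → ℤ) (i : ι) => (f i : ℚ)) ''
      {f | ∀ i, f i ∈ Set.Icc (-(K : ℤ)) (K : ℤ)}).Finite := by
    apply Set.Finite.image
    exact Set.Finite.pi' fun _ => Set.finite_Icc _ _
  refine hfin.subset ?_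
  rintro x ⟨hxZ, hb⟩
  have hz : ∀ i, ∃ z : ℤ, x i = z := hxZ
  choose f hf using hz
  refine ⟨f, fun i => ?_, ?_⟩
  · have := hb i
    rw [hf i, abs_le] at this
    constructor
    · have h := this.1
      exact_mod_cast h
    · have h := this.2
      exact_mod_cast h
  · funext i
    exact (hf i).symm

theorem pf_LFZ : T_LFZ := by
  intro d S
  refine ⟨fun a ha => mem_gen a ha, fun m => ?_⟩
  obtain ⟨N, hN⟩ := bd (gen S)
  obtain ⟨K, hK⟩ := exists_nat_ge ((m : ℚ) * N)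
  refine (finBox (ι := Fin d ⊕ Unit) K).subset ?_
  rintro x ⟨⟨c, hc, hx⟩, hxZ, hxm⟩
  refine ⟨hxZ, fun i => ?_⟩
  have hsum : ∑ a ∈ gen S, c a = (m : ℚ) := by
    rw [← hxm, hx, map_sum]
    refine sum_congr rfl fun a ha => ?_
    rw [map_smul, (mem_gen a ha).2, smul_eq_mul, mul_one]
  have e : x i = ∑ a ∈ gen S, c a * a i := by
    rw [hx, Finset.sum_apply]
    rfl
  rw [e]
  calc |∑ a ∈ gen S, c a * a i| ≤ ∑ a ∈ gen S, |c a * a i| := abs_sum_le_sum_abs _ _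
    _ ≤ ∑ a ∈ gen S, c a * N := by
        refine sum_le_sum fun a ha => ?_
        rw [abs_mul, abs_of_nonneg (hc a ha)]
        exact mul_le_mul_of_nonneg_left (hN a ha i) (hc a ha)
    _ = (m : ℚ) * N := by rw [← sum_mul, hsum]
    _ ≤ (K : ℚ) := hK

end Pool.Agent.H54.EH
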